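import Mathlib
import Pool.Agent.Lib.helper13.Reimer

set_option autoImplicit false

namespace Pool.Agent.Results.MP_24ae9b_co.Wojcik
open Finset H13UC

/-- A nonempty finite union-closed family of finite sets. -/
def UnionClosed (F : Finset (Finset ℕ)) : Prop :=
  F.Nonempty ∧ ∀ A ∈ F, ∀ B ∈ F, A ∪ B ∈ F

/-- The density: total size divided by (size of the union) times (number of members). -/
def density (F : Finset (Finset ℕ)) : ℚ :=
  (∑ A ∈ F, (A.card : ℚ)) / (((F.biUnion id).card : ℚ) * (F.card : ℚ))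

/-- All subsets of `{1,…,k}` together with `{1,…,n}`. -/
def W (n k : ℕ) : Finset (Finset ℕ) := insert (Icc 1 n) (Icc 1 k).powerset

def Low (n : ℕ) (H : ℚ) : Prop := ∀ k : ℕ, H * (2 ^ (k + 1) + 2) ≤ k * 2 ^ k + 2 * n

theorem lin {n : ℕ} {H : ℚ} (h : Low n H) (k M : ℕ) (h1 : 2 ^ k ≤ M) (h2 : M ≤ 2 ^ (k + 1)) :
    2 * H * (M + 1) + 2 ^ (k + 1) ≤ 2 * n + M * (k + 2) := by
  have a := h k
  have b := h (k + 1)
  have h1' : (2 : ℚ) ^ k ≤ M := by exact_mod_cast h1
  have h2' : (M : ℚ) ≤ 2 ^ (k + 1) := by exact_mod_cast h2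
  have hp : (0 : ℚ) < 2 ^ k := by positivity
  simp only [pow_succ] at *
  push_cast at b
  generalize (2 : ℚ) ^ k = p at *
  have c1 := mul_le_mul_of_nonneg_left a (sub_nonneg.mpr h2')
  have c2 := mul_le_mul_of_nonneg_left b (sub_nonneg.mpr h1')
  refine le_of_mul_le_mul_left ?_ hp
  nlinarith

def ok (n m j : ℕ) : Prop :=
  ∃ k < 8, (eT.getD m 0 + 2 ^ (k + 1)) * (2 ^ (j + 1) + 2) + m * (j * 2 ^ j + 2 * n) ≤
    max (m * (k + 2)) (max ((m - 1) * (k + 2) + 1 + n) ((m - 3) * (k + 2) + 3 + 2 * n)) *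
      (2 ^ (j + 1) + 2)

instance (n m j : ℕ) : Decidable (ok n m j) := by unfold ok; infer_instance

def ok' (n m j : ℕ) : Prop := m * (j * 2 ^ j + 2 * n) ≤ 2 * n * (2 ^ (j + 1) + 2) ∨
  (m = 8 ∧ (n = 5 ∨ n = 6) ∧ m * (j * 2 ^ j + 2 * n) ≤ (n + 10) * (2 ^ (j + 1) + 2)) ∨ ok n m j

instance (n m j : ℕ) : Decidable (ok' n m j) := by unfold ok'; infer_instance

theorem fin : ∀ n < 21, ∀ m < 128, 3 ≤ m → ∃ j < 6, ok' n m j := by
  decide +kernel

theorem numeric {n m w : ℕ} {H : ℚ} (h : Low n H) (hm : 3 ≤ m)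
    (b0 : ∀ k, m * (k + 2) ≤ w + e m + 2 ^ (k + 1))
    (b1 : ∀ k, (m - 1) * (k + 2) + 1 + n ≤ w + e m + 2 ^ (k + 1))
    (b3 : ∀ k, (m - 3) * (k + 2) + 3 + 2 * n ≤ w + e m + 2 ^ (k + 1))
    (b4 : 2 * n ≤ w) (b5 : m = 8 → n = 5 ∨ n = 6 → n + 10 ≤ w) : H * m ≤ w := by
  rcases le_total H 0 with hH | hH
  · exact (mul_nonpos_of_nonpos_of_nonneg hH (Nat.cast_nonneg m)).trans (Nat.cast_nonneg w)
  obtain ⟨k, h1, h2⟩ : ∃ k, 2 ^ k ≤ m ∧ m < 2 ^ (k + 1) :=
    ⟨Nat.log 2 m, Nat.pow_log_le_self 2 (by omega), Nat.lt_pow_succ_log_self (by norm_num) m⟩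
  have he := e_le k m h1 h2.le
  by_cases c1 : 3 * k + 3 ≤ n
  · have h3 := lin h k m h1 h2.le
    have h4 := b3 k
    have h5 : (m - 3) * (k + 2) + 3 * (k + 2) = m * (k + 2) := by
      rw [← add_mul]; congr 1; omega
    have h6 : 2 * n + m * (k + 2) ≤ 2 * w + 2 ^ (k + 1) := by omega
    have h7 : (2 * n + m * (k + 2) : ℚ) ≤ 2 * w + 2 ^ (k + 1) := by exact_mod_cast h6
    nlinarith
  by_cases c2 : 7 ≤ k
  · obtain ⟨j, rfl⟩ : ∃ j, k = j + 7 := ⟨k - 7, by omega⟩
    have h3 := h (j + 5)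
    have h4 : n ≤ 2 ^ (j + 5) := by
      have : j < 2 ^ j := Nat.lt_two_pow_self
      rw [pow_add]; omega
    have h4' : (n : ℚ) ≤ 2 ^ (j + 5) := by exact_mod_cast h4
    have h5 : 2 * H ≤ j + 7 := by
      have hp : (0 : ℚ) < 2 ^ (j + 5) := by positivity
      rw [pow_succ] at h3
      push_cast at h3
      generalize (2 : ℚ) ^ (j + 5) = p at *
      refine le_of_mul_le_mul_left ?_ hp
      nlinarith
    have h6 := b0 (j + 7)
    have h7 : m * (j + 7) ≤ 2 * w := by
      have : m * (j + 7 + 2) = m * (j + 7) + 2 * m := by ring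
      rw [pow_succ 2 (j + 7)] at *
      omega
    have h8 : (m * (j + 7) : ℚ) ≤ 2 * w := by exact_mod_cast h7
    have := mul_le_mul_of_nonneg_left h5 (Nat.cast_nonneg (α := ℚ) m)
    nlinarith
  · have hm2 : m < 128 := h2.trans_le (Nat.pow_le_pow_right (by norm_num) (show k + 1 ≤ 7 by omega))
    obtain ⟨j, -, hj⟩ := fin n (by omega) m hm2 hm
    have h3 : m * (j * 2 ^ j + 2 * n) ≤ w * (2 ^ (j + 1) + 2) := by
      rcases hj with hj | ⟨h4, h5, hj⟩ | ⟨l, -, hj⟩
      · exact hj.trans (Nat.mul_le_mul_right _ b4)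
      · exact hj.trans (Nat.mul_le_mul_right _ (b5 h4 h5))
      · have h4 := Nat.mul_le_mul_right (2 ^ (j + 1) + 2)
          (max_le (b0 l) (max_le (b1 l) (b3 l)))
        rw [← e_eq m (by omega)] at hj
        have h5 := hj.trans h4
        rw [add_assoc w, add_mul w] at h5
        omega
    have h4 : (m * (j * 2 ^ j + 2 * n) : ℚ) ≤ w * (2 ^ (j + 1) + 2) := by exact_mod_cast h3
    have h5 := mul_le_mul_of_nonneg_left (h j) (Nat.cast_nonneg (α := ℚ) m)
    have hp : (0 : ℚ) < 2 ^ (j + 1) + 2 := by positivity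
    refine le_of_mul_le_mul_right ?_ hp
    nlinarith

theorem lower (F : Finset (Finset ℕ)) (hF : UnionClosed F) {H : ℚ}
    (h : Low (F.biUnion id).card H) : H * F.card ≤ (∑ A ∈ F, A.card : ℕ) := by
  obtain ⟨hne, hU⟩ := hF
  set T := F.biUnion id with hTdef
  have hT : ∀ A ∈ F, A ⊆ T := fun A hA => subset_biUnion_of_mem id hA
  have hTF : T ∈ F := by
    rw [hTdef, ← sup_eq_biUnion, ← sup'_eq_sup hne]
    exact sup'_mem (F : Set (Finset ℕ)) (fun A hA B hB => hU A hA B hB) F hne id (fun A hA => hA)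
  have s1 := add_sum_erase F card hTF
  have k1 := card_erase_add_one hTF
  by_cases hc : ∀ A ∈ F.erase T, ∀ B ∈ F.erase T, A ∪ B ∈ F.erase T
  · rcases Nat.eq_zero_or_pos (F.erase T).card with h0 | h0
    · have h1 := h 0
      have h2 : (T.card : ℚ) ≤ (∑ A ∈ F, A.card : ℕ) := by exact_mod_cast (by omega)
      have h3 : (0 : ℚ) ≤ T.card := Nat.cast_nonneg _
      rw [← k1, h0]
      norm_num at h1 ⊢
      push_cast at h2
      linarith
    · obtain ⟨c, c1, -, c3⟩ := key T (F.erase T) (fun A hA => hT A (mem_of_mem_erase hA)) hc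
      set M := (F.erase T).card
      have h1 := Nat.pow_log_le_self 2 h0.ne'
      have h2 := (Nat.lt_pow_succ_log_self (b := 2) (by norm_num) M).le
      have h3 := lin h _ M h1 h2
      have h4 := e_le _ M h1 h2
      have h5 : M * (Nat.log 2 M + 2) ≤ _ := (c3 _ Subset.rfl (Nat.log 2 M)).1
      have h6 : 2 * T.card + M * (Nat.log 2 M + 2) ≤
          2 * ∑ A ∈ F, A.card + 2 ^ (Nat.log 2 M + 1) := by omega
      have h7 : (2 * T.card + M * (Nat.log 2 M + 2) : ℚ) ≤
          2 * (∑ A ∈ F, A.card : ℕ) + 2 ^ (Nat.log 2 M + 1) := by exact_mod_cast h6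
      rw [← k1]
      push_cast at h7 ⊢
      linarith
  push Not at hc
  obtain ⟨A, hA, B, hB, hAB⟩ := hc
  have hABT : A ∪ B = T := by
    by_contra h1
    exact hAB (mem_erase.mpr ⟨h1, hU A (mem_of_mem_erase hA) B (mem_of_mem_erase hB)⟩)
  have hne' : B ≠ A := by
    rintro rfl
    exact hAB (by rwa [union_self])
  have hB' : B ∈ (F.erase T).erase A := mem_erase.mpr ⟨hne', hB⟩
  have s2 := add_sum_erase _ card hA
  have s3 := add_sum_erase _ card hB'
  have k2 := card_erase_add_one hA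
  have k3 := card_erase_add_one hB'
  have k4 : T.card ≤ A.card + B.card := hABT ▸ card_union_le A B
  obtain ⟨c, c1, c2, c3⟩ := key T F hT hU
  have t1 := add_sum_erase F c hTF
  have t2 := add_sum_erase _ c hA
  have t3 := add_sum_erase _ c hB'
  have cA := c2 hTF A (mem_of_mem_erase hA) (ne_of_mem_erase hA)
  have cB := c2 hTF B (mem_of_mem_erase hB) (ne_of_mem_erase hB)
  refine numeric h (by omega) (fun k => ?_) (fun k => ?_) (fun k => ?_) (by omega) ?_
  · have := (c3 F Subset.rfl k).1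
    omega
  · have := (c3 _ (erase_subset T F) k).2 hTF (notMem_erase T F)
    rw [show F.card - 1 = (F.erase T).card by omega]
    omega
  · have := (c3 (((F.erase T).erase A).erase B)
      ((erase_subset _ _).trans ((erase_subset _ _).trans (erase_subset _ _))) k).2 hTF
      (fun h1 => notMem_erase T F (mem_of_mem_erase (mem_of_mem_erase h1)))
    rw [show F.card - 3 = (((F.erase T).erase A).erase B).card by omega]
    omega
  · intro h8 hn
    have dc : ∑ A ∈ F, A.card = ∑ x ∈ T, (F.filter (x ∈ ·)).card := by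
      simp only [card_filter]
      rw [sum_comm]
      refine sum_congr rfl (fun C hC => ?_)
      rw [← card_filter, filter_mem_eq_inter, inter_eq_right.mpr (hT C hC)]
    by_cases h3 : ∀ x ∈ T, 3 ≤ (F.filter (x ∈ ·)).card
    · have := card_nsmul_le_sum T _ 3 h3
      rw [smul_eq_mul] at this
      omega
    push Not at h3
    obtain ⟨x, hx, h3⟩ := h3
    obtain ⟨C, hC, hxC⟩ : ∃ C ∈ F.erase T, x ∈ C := by
      rw [← hABT, mem_union] at hx
      rcases hx with hx | hx
      · exact ⟨A, hA, hx⟩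
      · exact ⟨B, hB, hx⟩
    have u1 : ({T, C} : Finset (Finset ℕ)) ⊆ F.filter (x ∈ ·) := by
      intro D hD
      rw [mem_insert, mem_singleton] at hD
      rcases hD with rfl | rfl
      · exact mem_filter.mpr ⟨hTF, hx⟩
      · exact mem_filter.mpr ⟨mem_of_mem_erase hC, hxC⟩
    have u2 := sum_le_sum_of_subset (f := card) u1
    have u3 := card_le_card u1
    rw [sum_pair (ne_of_mem_erase hC).symm] at u2
    rw [card_pair (ne_of_mem_erase hC).symm] at u3
    have u4 := card_pos.mpr ⟨x, hxC⟩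
    have u5 := sum_filter_add_sum_filter_not F (x ∈ ·) card
    have u6 := card_filter_add_card_filter_not (s := F) (x ∈ ·)
    obtain ⟨c', d1, -, d3⟩ := key T (F.filter (fun D => ¬ x ∈ D))
      (fun D hD => hT D (mem_filter.mp hD).1) (fun D hD D' hD' => by
        rw [mem_filter] at *
        exact ⟨hU D hD.1 D' hD'.1, by simp [hD.2, hD'.2]⟩)
    have d4 := (d3 _ Subset.rfl 2).1
    have u7 : (F.filter (fun D => ¬ x ∈ D)).card = 6 := by omega
    have e6 : e 6 = 7 := by rw [e_eq 6 (by norm_num)]; rfl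
    rw [u7] at d1 d4
    omega

theorem sum_pow (s : Finset ℕ) : 2 * ∑ A ∈ s.powerset, A.card = s.card * 2 ^ s.card := by
  induction s using Finset.induction_on with
  | empty => simp
  | insert x s hx ih =>
    rw [sum_powerset_insert hx, card_insert_of_notMem hx, sum_congr rfl (fun A hA =>
      card_insert_of_notMem (fun h => hx (mem_powerset.mp hA h))), sum_add_distrib]
    simp only [sum_const, card_powerset, smul_eq_mul, mul_one, pow_succ]
    nlinarith

theorem W_spec {n k : ℕ} (h : k < n) : UnionClosed (W n k) ∧ ((W n k).biUnion id).card = n ∧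
    density (W n k) = (k * 2 ^ k + 2 * n) / (2 ^ (k + 1) + 2) / n := by
  have hs : Icc 1 k ⊆ Icc 1 n := Icc_subset_Icc_right h.le
  have hn : Icc 1 n ∉ (Icc 1 k).powerset := fun h1 => by
    have := card_le_card (mem_powerset.mp h1)
    simp at this; omega
  have hb : (W n k).biUnion id = Icc 1 n := by
    rw [W, biUnion_insert]
    refine union_eq_left.mpr (biUnion_subset.mpr (fun A hA => (mem_powerset.mp hA).trans hs))
  refine ⟨⟨insert_nonempty _ _, fun A hA B hB => ?_⟩, by rw [hb]; simp, ?_⟩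
  · simp only [W, mem_insert, mem_powerset] at *
    rcases hA with rfl | hA <;> rcases hB with rfl | hB
    · left; simp
    · left; exact union_eq_left.mpr (hB.trans hs)
    · left; exact union_eq_right.mpr (hA.trans hs)
    · right; exact union_subset hA hB
  · have h1 := sum_pow (Icc 1 k)
    have h2 : (2 : ℚ) * ∑ A ∈ (Icc 1 k).powerset, (A.card : ℚ) = k * 2 ^ k := by
      rw [Nat.card_Icc, Nat.add_sub_cancel] at h1; exact_mod_cast h1
    have h3 : (n : ℚ) ≠ 0 := by exact_mod_cast (by omega : n ≠ 0)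
    rw [density, hb, W, sum_insert hn, card_insert_of_notMem hn, card_powerset, ← h2]
    simp only [Nat.card_Icc, Nat.add_sub_cancel]
    push_cast
    field_simp
    ring

def hh (n k : ℕ) : ℚ := (k * 2 ^ k + 2 * n) / (2 ^ (k + 1) + 2)

theorem hh_up {n k : ℕ} (h : n ≤ 2 ^ k) : hh n k ≤ hh n (k + 1) := by
  have h' : (n : ℚ) ≤ 2 ^ k := by exact_mod_cast h
  have hp : (0 : ℚ) < 2 ^ k := by positivity
  have hk : (0 : ℚ) ≤ k := Nat.cast_nonneg k
  rw [hh, hh, div_le_div_iff₀ (by positivity) (by positivity)]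
  simp only [pow_succ]
  push_cast
  generalize (2 : ℚ) ^ k = p at *
  nlinarith [mul_le_mul_of_nonneg_left h' hp.le, mul_nonneg hp.le hk]

theorem hh_down {n k : ℕ} (h : 2 ^ (k + 1) ≤ n) : hh n (k + 1) ≤ hh n k := by
  have h' : (2 : ℚ) ^ (k + 1) ≤ n := by exact_mod_cast h
  have hp : (0 : ℚ) < 2 ^ k := by positivity
  have hk : (k : ℚ) + 2 ≤ 2 ^ (k + 1) := by
    have : k + 1 < 2 ^ (k + 1) := Nat.lt_two_pow_self
    exact_mod_cast this
  rw [hh, hh, div_le_div_iff₀ (by positivity) (by positivity)]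
  simp only [pow_succ] at *
  push_cast
  generalize (2 : ℚ) ^ k = p at *
  nlinarith [mul_le_mul_of_nonneg_left h' hp.le, mul_le_mul_of_nonneg_left hk hp.le]

theorem hh_min {n : ℕ} (hn : 1 ≤ n) (k : ℕ) :
    min (hh n (Nat.log 2 n)) (hh n (Nat.clog 2 n)) ≤ hh n k := by
  by_cases h : k ≤ Nat.log 2 n
  · refine (min_le_left _ _).trans ?_
    have : ∀ j, k ≤ j → j ≤ Nat.log 2 n → hh n j ≤ hh n k := by
      intro j hj
      induction j, hj using Nat.le_induction with
      | base => intro _; exact le_rfl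
      | succ j hj ih =>
        intro h1
        exact (hh_down (Nat.pow_le_of_le_log (by omega) h1)).trans (ih (by omega))
    exact this _ h le_rfl
  · refine (min_le_right _ _).trans ?_
    have h1 : Nat.clog 2 n ≤ k := by
      rw [Nat.clog_le_iff_le_pow (by norm_num)]
      exact (Nat.lt_pow_of_log_lt (by norm_num) (not_le.mp h)).le
    induction k, h1 using Nat.le_induction with
    | base => exact le_rfl
    | succ j hj ih =>
      have h2 : n ≤ 2 ^ j := (Nat.clog_le_iff_le_pow (by norm_num)).mp hj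
      by_cases h3 : j ≤ Nat.log 2 n
      · have : j = Nat.clog 2 n := le_antisymm (h3.trans (Nat.log_le_clog 2 n)) hj
        exact this ▸ hh_up h2
      · exact (ih h3).trans (hh_up h2)

/-- Wójcik's conjecture: for `n ≥ 1` the least density of a union-closed family whose union has
`n` elements is the smaller of the densities of `W n ⌊log₂ n⌋` and `W n ⌈log₂ n⌉`. -/
theorem result (n : ℕ) (hn : 1 ≤ n) :
    IsLeast {d : ℚ | ∃ F : Finset (Finset ℕ),
        UnionClosed F ∧ (F.biUnion id).card = n ∧ density F = d}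
      (min (density (W n (Nat.log 2 n))) (density (W n (Nat.clog 2 n)))) := by
  have h2 : Nat.clog 2 n < n := by
    have : Nat.clog 2 n ≤ n - 1 := by
      rw [Nat.clog_le_iff_le_pow (by norm_num)]
      have : n - 1 < 2 ^ (n - 1) := Nat.lt_two_pow_self
      omega
    omega
  have h1 : Nat.log 2 n < n := (Nat.log_le_clog 2 n).trans_lt h2
  have w1 := W_spec h1
  have w2 := W_spec h2
  have hn' : (0 : ℚ) < n := by exact_mod_cast hn
  constructor
  · rcases min_choice (density (W n (Nat.log 2 n))) (density (W n (Nat.clog 2 n))) with h | h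
    · rw [h]; exact ⟨_, w1.1, w1.2.1, rfl⟩
    · rw [h]; exact ⟨_, w2.1, w2.2.1, rfl⟩
  · rintro d ⟨F, hF, hc, rfl⟩
    have hL : Low (F.biUnion id).card (min (hh n (Nat.log 2 n)) (hh n (Nat.clog 2 n))) := by
      intro k
      rw [hc, ← le_div_iff₀ (by positivity)]
      exact hh_min hn k
    have h3 := lower F hF hL
    have hm : (0 : ℚ) < F.card := by exact_mod_cast hF.1.card_pos
    rw [w1.2.2, w2.2.2, min_div_div_right hn'.le, density, hc, div_le_div_iff₀ hn' (by positivity)]
    push_cast at h3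
    have := mul_le_mul_of_nonneg_right h3 hn'.le
    unfold hh at this
    linarith

end Pool.Agent.Results.MP_24ae9b_co.Wojcik
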